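import Pool.Agent.W2helper3.BQ.Stm3

/-!
# Project BQ3: the pointwise inequality BB3
-/

set_option autoImplicit false

namespace Pool.Agent.W2helper98.BQ3

theorem pow_exp {p t X w : ℝ} (hp : 2 ≤ p) (ht : 0 ≤ t) (hX : 0 ≤ X) (hw : 0 ≤ w)
    (h : p * w ≤ t * X) : (X + w) ^ (p - 2) ≤ X ^ (p - 2) * Real.exp t := by
  have hp0 : 0 < p := by linarith
  have h1 : X + w ≤ X * Real.exp (t / p) := by
    have h2 : t / p + 1 ≤ Real.exp (t / p) := Real.add_one_le_exp _
    have h3 : w ≤ t / p * X := by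
      rw [div_mul_eq_mul_div, le_div_iff₀ hp0]
      linarith
    nlinarith
  calc (X + w) ^ (p - 2) ≤ (X * Real.exp (t / p)) ^ (p - 2) :=
        Real.rpow_le_rpow (by linarith) h1 (by linarith)
    _ = X ^ (p - 2) * Real.exp (t / p) ^ (p - 2) := Real.mul_rpow hX (Real.exp_pos _).le
    _ = X ^ (p - 2) * Real.exp (t / p * (p - 2)) := by rw [← Real.exp_mul]
    _ ≤ X ^ (p - 2) * Real.exp t := by
        apply mul_le_mul_of_nonneg_left _ (Real.rpow_nonneg hX _)
        apply Real.exp_le_exp.mpr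
        rw [div_mul_eq_mul_div, div_le_iff₀ hp0]
        nlinarith

theorem bb3 (C C₁ p q : ℝ) (hC : 1 ≤ C) (hC₁ : 1 ≤ C₁) (hq : 2 ≤ q) (hp : 32 * C * q ≤ p)
    (X w W b : ℝ) (hX : 0 ≤ X) (hw : 0 ≤ w) (_ : 0 ≤ W) (hb : 0 ≤ b)
    (h1 : p * w ≤ C₁ * W) (h2 : p * w ≤ C * q * b ^ (1 / q)) :
    p ^ 2 / 2 * w ^ 2 * (X + w) ^ (p - 2) ≤
      32 * C₁ ^ 2 * Real.exp (20 * C * q) *
        (X ^ (p - 2) * W ^ 2 + X ^ (p - q) * b + (1 / 8) ^ p * b ^ (p / q)) := by
  have hCq : 2 ≤ C * q := by nlinarith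
  have hp64 : 64 ≤ p := by nlinarith
  have hp0 : 0 < p := by linarith
  have hq0 : 0 < q := by linarith
  have hC0 : 0 < C := by linarith
  have hqCq : q ≤ C * q := by nlinarith
  have hK : (1 : ℝ) ≤ C₁ ^ 2 := one_le_pow₀ hC₁
  have hA : 0 ≤ X ^ (p - 2) * W ^ 2 := mul_nonneg (Real.rpow_nonneg hX _) (sq_nonneg _)
  have hB : 0 ≤ X ^ (p - q) * b := mul_nonneg (Real.rpow_nonneg hX _) hb
  have hD : 0 ≤ (1 / 8 : ℝ) ^ p * b ^ (p / q) :=
    mul_nonneg (Real.rpow_nonneg (by norm_num) _) (Real.rpow_nonneg hb _)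
  have hpw : 0 ≤ p * w := mul_nonneg hp0.le hw
  have hL : p ^ 2 / 2 * w ^ 2 * (X + w) ^ (p - 2) = (p * w) ^ 2 / 2 * (X + w) ^ (p - 2) := by ring
  have hXw : 0 ≤ (X + w) ^ (p - 2) := Real.rpow_nonneg (by linarith) _
  rw [hL]
  by_cases hI : p * w ≤ q * X
  · -- Case I
    have h3 := pow_exp (p := p) (t := q) (by linarith) hq0.le hX hw hI
    have h4 : (p * w) ^ 2 ≤ (C₁ * W) ^ 2 := pow_le_pow_left₀ hpw h1 2
    have h5 : Real.exp q ≤ Real.exp (20 * C * q) := Real.exp_le_exp.mpr (by linarith)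
    calc (p * w) ^ 2 / 2 * (X + w) ^ (p - 2)
        ≤ (C₁ * W) ^ 2 / 2 * (X ^ (p - 2) * Real.exp q) := by
          apply mul_le_mul (by linarith) h3 hXw (by positivity)
      _ = C₁ ^ 2 * Real.exp q / 2 * (X ^ (p - 2) * W ^ 2) := by ring
      _ ≤ 32 * C₁ ^ 2 * Real.exp (20 * C * q) * (X ^ (p - 2) * W ^ 2) := by
          apply mul_le_mul_of_nonneg_right _ hA
          have h6 : 0 < Real.exp q := Real.exp_pos _
          have h7 : C₁ ^ 2 * Real.exp q ≤ C₁ ^ 2 * Real.exp (20 * C * q) :=
            mul_le_mul_of_nonneg_left h5 (sq_nonneg C₁)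
          have h8 : 0 ≤ C₁ ^ 2 * Real.exp q := by positivity
          linarith
      _ ≤ _ := by
          apply mul_le_mul_of_nonneg_left _ (by positivity)
          linarith
  · -- Case II
    push Not at hI
    set y := b ^ (1 / q) with hy
    have hy0 : 0 < y := by
      have h3 : 0 ≤ q * X := mul_nonneg hq0.le hX
      have h4 : 0 < C * q * y := by linarith
      by_contra hc
      push Not at hc
      have h5 : C * q * y ≤ 0 := mul_nonpos_of_nonneg_of_nonpos (by positivity) hc
      linarith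
    have hXy : X ≤ C * y := by
      have h3 : q * X ≤ q * (C * y) := by
        calc q * X ≤ p * w := hI.le
          _ ≤ C * q * y := h2
          _ = q * (C * y) := by ring
      exact le_of_mul_le_mul_left h3 hq0
    have hbq : b = y ^ q := by
      rw [hy, ← Real.rpow_mul hb, one_div, inv_mul_cancel₀ hq0.ne', Real.rpow_one]
    have hbp : b ^ (p / q) = y ^ p := by
      rw [hy, ← Real.rpow_mul hb]
      congr 1
      field_simp
    have hsq : (p * w) ^ 2 ≤ (C * q * y) ^ 2 := pow_le_pow_left₀ hpw h2 2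
    by_cases hII : y ≤ 16 * X
    · -- Case IIa
      have hX0 : 0 < X := by linarith
      have h3 : p * w ≤ (16 * C * q) * X := by
        calc p * w ≤ C * q * y := h2
          _ ≤ C * q * (16 * X) := mul_le_mul_of_nonneg_left hII (by positivity)
          _ = (16 * C * q) * X := by ring
      have h4 := pow_exp (p := p) (t := 16 * C * q) (by linarith) (by positivity) hX hw h3
      have h5 : y ^ (2 - q) ≤ (X / C) ^ (2 - q) := by
        apply Real.rpow_le_rpow_of_nonpos (by positivity) _ (by linarith)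
        rw [div_le_iff₀ hC0]
        linarith
      have h6 : (X / C) ^ (2 - q) = X ^ (2 - q) * C ^ (q - 2) := by
        rw [Real.div_rpow hX0.le hC0.le, div_eq_mul_inv, ← Real.rpow_neg hC0.le]
        congr 2
        ring
      have h7 : y ^ 2 * X ^ (p - 2) ≤ C ^ (q - 2) * (X ^ (p - q) * b) := by
        have h8 : y ^ 2 = y ^ q * y ^ (2 - q) := by
          rw [← Real.rpow_add hy0]
          rw [show q + (2 - q) = (2 : ℝ) by ring]
          norm_num
        have h9 : X ^ (2 - q) * X ^ (p - 2) = X ^ (p - q) := by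
          rw [← Real.rpow_add hX0]
          congr 1
          ring
        calc y ^ 2 * X ^ (p - 2) = y ^ q * y ^ (2 - q) * X ^ (p - 2) := by rw [h8]
          _ ≤ y ^ q * (X ^ (2 - q) * C ^ (q - 2)) * X ^ (p - 2) := by
              apply mul_le_mul_of_nonneg_right _ (Real.rpow_nonneg hX _)
              apply mul_le_mul_of_nonneg_left _ (Real.rpow_nonneg hy0.le _)
              rw [← h6]
              exact h5
          _ = C ^ (q - 2) * ((X ^ (2 - q) * X ^ (p - 2)) * y ^ q) := by ring
          _ = C ^ (q - 2) * (X ^ (p - q) * b) := by rw [h9, ← hbq]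
      have h8 : C ^ 2 * C ^ (q - 2) = C ^ q := by
        rw [← Real.rpow_natCast C 2, ← Real.rpow_add hC0]
        congr 1
        push_cast
        ring
      have h9 : C ^ q ≤ Real.exp (C * q) := by
        have h10 : C ≤ Real.exp C := by linarith [Real.add_one_le_exp C]
        calc C ^ q ≤ Real.exp C ^ q := Real.rpow_le_rpow hC0.le h10 hq0.le
          _ = Real.exp (C * q) := by rw [← Real.exp_mul]
      have h10 : q ^ 2 / 2 ≤ Real.exp q := by
        have := Real.quadratic_le_exp_of_nonneg hq0.le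
        linarith
      have h11 : q ^ 2 / 2 * C ^ q * Real.exp (16 * C * q) ≤
          32 * C₁ ^ 2 * Real.exp (20 * C * q) := by
        have h12 : q ^ 2 / 2 * C ^ q ≤ Real.exp q * Real.exp (C * q) :=
          mul_le_mul h10 h9 (Real.rpow_nonneg hC0.le _) (Real.exp_pos _).le
        have h13 : Real.exp q * Real.exp (C * q) * Real.exp (16 * C * q) ≤
            Real.exp (20 * C * q) := by
          rw [← Real.exp_add, ← Real.exp_add]
          exact Real.exp_le_exp.mpr (by linarith)
        calc q ^ 2 / 2 * C ^ q * Real.exp (16 * C * q)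
            ≤ Real.exp q * Real.exp (C * q) * Real.exp (16 * C * q) :=
              mul_le_mul_of_nonneg_right h12 (Real.exp_pos _).le
          _ ≤ Real.exp (20 * C * q) := h13
          _ ≤ 32 * C₁ ^ 2 * Real.exp (20 * C * q) :=
              le_mul_of_one_le_left (Real.exp_pos _).le (by linarith)
      calc (p * w) ^ 2 / 2 * (X + w) ^ (p - 2)
          ≤ (C * q * y) ^ 2 / 2 * (X ^ (p - 2) * Real.exp (16 * C * q)) := by
            apply mul_le_mul (by linarith) h4 hXw (by positivity)
        _ = C ^ 2 * (q ^ 2 / 2) * Real.exp (16 * C * q) * (y ^ 2 * X ^ (p - 2)) := by ring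
        _ ≤ C ^ 2 * (q ^ 2 / 2) * Real.exp (16 * C * q) * (C ^ (q - 2) * (X ^ (p - q) * b)) :=
            mul_le_mul_of_nonneg_left h7 (by positivity)
        _ = q ^ 2 / 2 * (C ^ 2 * C ^ (q - 2)) * Real.exp (16 * C * q) * (X ^ (p - q) * b) := by
            ring
        _ = q ^ 2 / 2 * C ^ q * Real.exp (16 * C * q) * (X ^ (p - q) * b) := by rw [h8]
        _ ≤ 32 * C₁ ^ 2 * Real.exp (20 * C * q) * (X ^ (p - q) * b) :=
            mul_le_mul_of_nonneg_right h11 hB
        _ ≤ _ := by
            apply mul_le_mul_of_nonneg_left _ (by positivity)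
            linarith
    · -- Case IIb
      push Not at hII
      have h3 : X + w ≤ y / 8 := by
        have h4 : w ≤ y / 32 := by
          have h5 : p * w ≤ p * (y / 32) := by
            calc p * w ≤ C * q * y := h2
              _ = (32 * C * q) * (y / 32) := by ring
              _ ≤ p * (y / 32) := mul_le_mul_of_nonneg_right hp (by positivity)
          exact le_of_mul_le_mul_left h5 hp0
        linarith
      have h4 : (X + w) ^ (p - 2) ≤ (y / 8) ^ (p - 2) :=
        Real.rpow_le_rpow (by linarith) h3 (by linarith)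
      have h5 : y ^ 2 * (y / 8) ^ (p - 2) = 64 * ((1 / 8) ^ p * b ^ (p / q)) := by
        have h6 : (y / 8) ^ 2 * (y / 8) ^ (p - 2) = (y / 8) ^ p := by
          rw [← Real.rpow_natCast (y / 8) 2, ← Real.rpow_add (by positivity)]
          congr 1
          push_cast
          ring
        have h7 : (y / 8) ^ p = (1 / 8) ^ p * b ^ (p / q) := by
          rw [hbp, ← Real.mul_rpow (by norm_num) hy0.le]
          congr 1
          ring
        calc y ^ 2 * (y / 8) ^ (p - 2) = 64 * ((y / 8) ^ 2 * (y / 8) ^ (p - 2)) := by ring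
          _ = 64 * ((1 / 8) ^ p * b ^ (p / q)) := by rw [h6, h7]
      have h6 : (C * q) ^ 2 ≤ C₁ ^ 2 * Real.exp (20 * C * q) := by
        have h7 : C * q ≤ Real.exp (C * q) := by linarith [Real.add_one_le_exp (C * q)]
        calc (C * q) ^ 2 ≤ Real.exp (C * q) ^ 2 := pow_le_pow_left₀ (by positivity) h7 2
          _ = Real.exp (2 * (C * q)) := by rw [← Real.exp_nat_mul]; norm_num
          _ ≤ Real.exp (20 * C * q) := Real.exp_le_exp.mpr (by linarith)
          _ ≤ C₁ ^ 2 * Real.exp (20 * C * q) :=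
              le_mul_of_one_le_left (Real.exp_pos _).le hK
      calc (p * w) ^ 2 / 2 * (X + w) ^ (p - 2)
          ≤ (C * q * y) ^ 2 / 2 * (y / 8) ^ (p - 2) := by
            apply mul_le_mul (by linarith) h4 hXw (by positivity)
        _ = (C * q) ^ 2 / 2 * (y ^ 2 * (y / 8) ^ (p - 2)) := by ring
        _ = 32 * (C * q) ^ 2 * ((1 / 8) ^ p * b ^ (p / q)) := by rw [h5]; ring
        _ ≤ 32 * (C₁ ^ 2 * Real.exp (20 * C * q)) * ((1 / 8) ^ p * b ^ (p / q)) := by
            apply mul_le_mul_of_nonneg_right _ hD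
            linarith
        _ = 32 * C₁ ^ 2 * Real.exp (20 * C * q) * ((1 / 8) ^ p * b ^ (p / q)) := by ring
        _ ≤ _ := by
            apply mul_le_mul_of_nonneg_left _ (by positivity)
            linarith

theorem p_bb3 : Pool.Agent.W2helper3.BQ.P_BB3 :=
  fun C C₁ p q hC hC₁ hq hp X w W b hX hw hW hb h1 h2 =>
    bb3 C C₁ p q hC hC₁ hq hp X w W b hX hw hW hb h1 h2

end Pool.Agent.W2helper98.BQ3
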